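import Pool.Agent.H44.FB.Basics

/-!
# The injective part, row LSB: realizability is local
-/

set_option autoImplicit false

namespace Pool.Agent.H64.FBX

open Pool.Agent.H68.BP Pool.Agent.H58.SF Pool.Agent.H53.NR
open Pool.Agent.H53.GC (arP relP strOn sigOf)
open Pool.Agent.H57.AR (tp ty Ty)
open Pool.Agent.H57.SO (fib sigF SF)
open Pool.Agent.H57.LH (SS vs c0 Blind NCB Cor Prs tfL SyL)
open Pool.Agent.H57.LCI (LocalCompletions Pre Realizes)
open Pool.Agent.H44.KR Pool.Agent.H44.FB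
open Function Classical

variable {V : Type} {ρ : Sig}

instance pre_finite (k r : ℕ) :
    Finite (Σ j : Fin (r + 1), (Fin (j : ℕ) → Fin k) × Str ρ (Fin (j : ℕ))) := inferInstance

/-- the number of prescriptions of length at most `r` with entries in a set of `k` elements -/
theorem count (k r n : ℕ) (U : Finset (Fin n)) (hU : U.card ≤ k) (T : Set (Pre ρ (Fin n)))
    (hT : ∀ q ∈ T, q.1 ≤ r ∧ ∀ i, q.2.1 i ∈ U) :
    T.Finite ∧
      T.ncard ≤ Nat.card (Σ j : Fin (r + 1), (Fin (j : ℕ) → Fin k) × Str ρ (Fin (j : ℕ))) := by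
  have h1 : Nonempty ({x // x ∈ U} ↪ Fin k) := by
    refine Function.Embedding.nonempty_of_card_le ?_
    simpa using hU
  obtain ⟨ι⟩ := h1
  let enc : T → (Σ j : Fin (r + 1), (Fin (j : ℕ) → Fin k) × Str ρ (Fin (j : ℕ))) := fun q =>
    ⟨⟨q.1.1, Nat.lt_succ_of_le (hT q.1 q.2).1⟩,
      (fun i => ι ⟨q.1.2.1 i, (hT q.1 q.2).2 i⟩), q.1.2.2⟩
  have henc : Injective enc := by
    rintro ⟨⟨j, s, κ⟩, h⟩ ⟨⟨j', s', κ'⟩, h'⟩ heq
    simp only [enc, Sigma.mk.injEq, Fin.mk.injEq] at heq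
    obtain ⟨hj, heq⟩ := heq
    subst hj
    have heq' := eq_of_heq heq
    have h2 := congrArg Prod.fst heq'
    have h3 : κ = κ' := congrArg Prod.snd heq'
    have h4 : s = s' := by
      funext i
      have h5 := congrFun h2 i
      have h6 := ι.injective h5
      exact congrArg Subtype.val h6
    subst h3
    subst h4
    rfl
  have hfin : Finite T := Finite.of_injective enc henc
  refine ⟨Set.toFinite T, ?_⟩
  rw [← Nat.card_coe_set_eq]
  exact Nat.card_le_card_of_injective enc henc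

/-- locality for the conditions given by prescriptions -/
theorem locality (𝔹 : Str ρ V) (hlc : LocalCompletions 𝔹) (τ : Sig) (r : ℕ)
    (L : (c : Fin τ.m) → Set (Pre ρ (Fin (τ.ar c)))) (hL : ∀ c, ∀ p ∈ L c, p.1 ≤ r) :
    ∃ N : ℕ, ∀ (n : ℕ) (M : Str τ (Fin n)),
      (∀ U : Finset (Fin n), U.card ≤ N → ∃ f : Fin n → V,
        ∀ (c : Fin τ.m) (x : Fin (τ.ar c) → Fin n), M c x → (∀ a, x a ∈ U) →
          ∀ p ∈ L c, Realizes 𝔹 (fun a => f (x a)) p) →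
      ∃ f : Fin n → V, ∀ (c : Fin τ.m) (x : Fin (τ.ar c) → Fin n), M c x →
        ∀ p ∈ L c, Realizes 𝔹 (fun a => f (x a)) p := by
  obtain ⟨M₀, hM₀⟩ := hlc r
  obtain ⟨A, hA⟩ : ∃ A : ℕ, ∀ c, τ.ar c ≤ A :=
    ⟨Finset.univ.sup τ.ar, fun c => Finset.le_sup (Finset.mem_univ c)⟩
  obtain ⟨Q, hQ⟩ : ∃ Q : ℕ, Q = Nat.card (Σ j : Fin (r + 1),
    (Fin (j : ℕ) → Fin M₀) × Str ρ (Fin (j : ℕ))) := ⟨_, rfl⟩
  refine ⟨M₀ + Q * A, fun n M hM => ?_⟩
  -- all prescriptions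
  let P : Set (Pre ρ (Fin n)) := {q | ∃ (c : Fin τ.m) (x : Fin (τ.ar c) → Fin n), M c x ∧
    ∃ p ∈ L c, q = ⟨p.1, fun i => x (p.2.1 i), p.2.2⟩}
  have hPr : ∀ q ∈ P, q.1 ≤ r := by
    rintro q ⟨c, x, -, p, hp, rfl⟩
    exact hL c p hp
  -- the entries of an atom
  have hE : ∀ q : Pre ρ (Fin n), ∃ E : Finset (Fin n), E.card ≤ A ∧ (q ∈ P →
      ∃ (c : Fin τ.m) (x : Fin (τ.ar c) → Fin n), M c x ∧ (∀ a, x a ∈ E) ∧
        ∃ p ∈ L c, q = ⟨p.1, fun i => x (p.2.1 i), p.2.2⟩) := by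
    intro q
    by_cases hq : q ∈ P
    · obtain ⟨c, x, hx, p, hp, hqp⟩ := hq
      refine ⟨Finset.univ.image x, ?_, fun _ => ⟨c, x, hx, fun a => ?_, p, hp, hqp⟩⟩
      · refine (Finset.card_image_le).trans ?_
        simpa using hA c
      · exact Finset.mem_image_of_mem x (Finset.mem_univ a)
    · exact ⟨∅, by simp, fun h => absurd h hq⟩
  choose E hEc hEq using hE
  obtain ⟨f, hf⟩ := hM₀ n P hPr (by
    intro U₀ hU₀
    obtain ⟨hTfin, hTc⟩ := count M₀ r n U₀ hU₀ {q : Pre ρ (Fin n) | q ∈ P ∧ ∀ i, q.2.1 i ∈ U₀}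
      (fun q hq => ⟨hPr q hq.1, hq.2⟩)
    rw [← hQ] at hTc
    have hcard : (U₀ ∪ hTfin.toFinset.biUnion E).card ≤ M₀ + Q * A := by
      refine (Finset.card_union_le _ _).trans (Nat.add_le_add hU₀ ?_)
      refine (Finset.card_biUnion_le_card_mul _ _ A fun q _ => hEc q).trans ?_
      refine Nat.mul_le_mul_right A ?_
      rw [← Set.ncard_eq_toFinset_card _ hTfin]
      exact hTc
    obtain ⟨f, hf⟩ := hM _ hcard
    refine ⟨f, fun q hq hqU => ?_⟩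
    obtain ⟨c, x, hx, hxE, p, hp, hqp⟩ := hEq q hq
    have h1 := hf c x hx (fun a => Finset.mem_union_right _
      (Finset.mem_biUnion.2 ⟨q, hTfin.mem_toFinset.2 ⟨hq, hqU⟩, hxE a⟩)) p hp
    rw [hqp]
    exact h1)
  exact ⟨f, fun c x hx p hp => hf _ ⟨c, x, hx, p, hp, rfl⟩⟩

/-- the prescriptions which express the condition of a colour -/
theorem express (𝔹 : Str ρ V) (k : ℕ) (t : Fin k → Fin ρ.m → Prop) (κ : Str ρ (Fin k))
    (B : Set (Fin ρ.m → Prop)) : ∃ L : Set (Pre ρ (Fin k)), (∀ p ∈ L, p.1 ≤ max k 1) ∧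
      ∀ x : Fin k → V, (∀ p ∈ L, Realizes 𝔹 x p) ↔
        ((∀ a, ty 𝔹 (x a) = t a) ∧ (∀ a b, x a = x b → a = b ∨ t a ∈ B) ∧
          ∀ (l : Fin ρ.m) (z : Fin (ρ.ar l) → Fin k), (∀ i, t (z i) ∉ B) →
            (𝔹 l (fun i => x (z i)) ↔ κ l z)) := by
  obtain ⟨e⟩ : Nonempty (Fin (Nat.card {a : Fin k // t a ∉ B}) ≃ {a : Fin k // t a ∉ B}) :=
    ⟨(Finite.equivFin _).symm⟩
  have hcard : Nat.card {a : Fin k // t a ∉ B} ≤ k := by
    have h := Finite.card_subtype_le (fun a : Fin k => t a ∉ B)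
    exact h.trans (Nat.card_fin k).le
  let p1 : Pre ρ (Fin k) := ⟨Nat.card {a : Fin k // t a ∉ B}, fun i => (e i).1,
    fun l z => κ l (fun i => (e (z i)).1)⟩
  let p2 : Fin k → Pre ρ (Fin k) := fun a => ⟨1, fun _ => a, fun l _ => t a l⟩
  refine ⟨{p | p = p1 ∨ ∃ a, p = p2 a}, ?_, fun x => ⟨fun h => ?_, fun h => ?_⟩⟩
  · rintro p (rfl | ⟨a, rfl⟩)
    · exact hcard.trans (le_max_left _ _)
    · exact le_max_right _ _
  · have h1 : Injective (fun i => x (e i).1) ∧ ∀ (l : Fin ρ.m)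
        (z : Fin (ρ.ar l) → Fin (Nat.card {a : Fin k // t a ∉ B})),
        κ l (fun i => (e (z i)).1) ↔
        𝔹 l (fun i => x (e (z i)).1) := h p1 (Or.inl rfl)
    have h2 : ∀ a, ty 𝔹 (x a) = t a := by
      intro a
      have h3 : Injective (fun _ : Fin 1 => x a) ∧ ∀ (l : Fin ρ.m) (_ : Fin (ρ.ar l) → Fin 1),
          t a l ↔ 𝔹 l (fun _ => x a) := h (p2 a) (Or.inr ⟨a, rfl⟩)
      funext l
      exact propext (h3.2 l fun _ => 0).symm
    refine ⟨h2, fun a b hab => ?_, fun l z hz => ?_⟩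
    · by_cases ha : t a ∈ B
      · exact Or.inr ha
      · have hb : t b ∉ B := by
          rw [← h2 b, ← hab, h2 a]
          exact ha
        left
        have h4 : (fun i => x (e i).1) (e.symm ⟨a, ha⟩) = (fun i => x (e i).1) (e.symm ⟨b, hb⟩) := by
          simp only [Equiv.apply_symm_apply]
          exact hab
        have h5 := e.symm.injective (h1.1 h4)
        exact congrArg Subtype.val h5
    · have h6 := h1.2 l fun i => e.symm ⟨z i, hz i⟩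
      simp only [Equiv.apply_symm_apply] at h6
      exact h6.symm
  · obtain ⟨h1, h2, h3⟩ := h
    rintro p (rfl | ⟨a, rfl⟩)
    · refine ⟨fun i i' hii => ?_, fun l z => ?_⟩
      · rcases h2 _ _ hii with h4 | h4
        · exact e.injective (Subtype.ext h4)
        · exact absurd h4 (e i).2
      · exact (h3 l (fun i => (e (z i)).1) fun i => (e (z i)).2).symm
    · refine ⟨fun i i' _ => Subsingleton.elim _ _, fun l z => ?_⟩
      have h4 := congrFun (h1 a) l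
      exact (iff_of_eq h4).symm

theorem pf_LSB : T_LSB := by
  intro V σ ρ 𝔹 hB m B
  have hex : ∀ c : Fin (sigC 𝔹 σ m).m, ∃ L : Set (Pre ρ (Fin ((sigC 𝔹 σ m).ar c))),
      (∀ p ∈ L, p.1 ≤ max ((sigC 𝔹 σ m).ar c) 1) ∧
      ∀ x : Fin ((sigC 𝔹 σ m).ar c) → V, (∀ p ∈ L, Realizes 𝔹 x p) ↔ NC 𝔹 σ m B c x :=
    fun c => express 𝔹 _ (tyI 𝔹 σ m (co 𝔹 σ m c).1.1) (co 𝔹 σ m c).1.2 B
  choose L hL1 hL2 using hex
  obtain ⟨N, hN⟩ := locality 𝔹 hB.lc (sigC 𝔹 σ m)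
    (max (Finset.univ.sup (sigC 𝔹 σ m).ar) 1) L (fun c p hp => (hL1 c p hp).trans
      (max_le_max (Finset.le_sup (Finset.mem_univ c)) le_rfl))
  refine ⟨N, fun n M hM => ?_⟩
  obtain ⟨f, hf⟩ := hN n M (by
    intro U hU
    obtain ⟨f, hf⟩ := hM U hU
    exact ⟨f, fun c x hx hxU p hp => (hL2 c _).2 (hf c x hx hxU) p hp⟩)
  exact ⟨f, fun c x hx => (hL2 c _).1 (hf c x hx)⟩

end Pool.Agent.H64.FBX
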